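import Mathlib

namespace Pool.Agent.Results.MP_06821b_nt.BinaryColoured

open PowerSeries Finset

/-- `U (∑ a_n x^n) = ∑ a_{2n} x^n`. -/
noncomputable def U : ℤ⟦X⟧ →+ ℤ⟦X⟧ where
  toFun f := mk fun n => coeff (2 * n) f
  map_zero' := by ext n; simp
  map_add' f g := by ext n; simp

@[simp] lemma coeff_U (f : ℤ⟦X⟧) (n : ℕ) : coeff n (U f) = coeff (2 * n) f := by
  simp [U]

/-- `E f (x) = f (x^2)`. -/
noncomputable abbrev E : ℤ⟦X⟧ →ₐ[ℤ] ℤ⟦X⟧ := PowerSeries.expand 2 two_ne_zero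

lemma U_E_mul (g f : ℤ⟦X⟧) : U (E g * f) = g * U f := by
  ext n
  rw [coeff_U, PowerSeries.coeff_mul, PowerSeries.coeff_mul]
  symm
  refine Finset.sum_of_injOn (fun ij => (2 * ij.1, 2 * ij.2)) ?_ ?_ ?_ ?_
  · intro a _ b _ hab
    simp only [Prod.mk.injEq] at hab
    ext
    · omega
    · omega
  · intro a ha
    have := HasAntidiagonal.mem_antidiagonal.1 (Finset.mem_coe.1 ha)
    refine Finset.mem_coe.2 (HasAntidiagonal.mem_antidiagonal.2 ?_)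
    simp only
    omega
  · intro a ha hna
    have h1 := HasAntidiagonal.mem_antidiagonal.1 ha
    have h2 : ¬ 2 ∣ a.1 := by
      intro hd
      apply hna
      obtain ⟨q, hq⟩ := hd
      refine ⟨(q, n - q), ?_, ?_⟩
      · refine Finset.mem_coe.2 (HasAntidiagonal.mem_antidiagonal.2 ?_)
        simp only
        omega
      · ext
        · simp only; omega
        · simp only; omega
    rw [PowerSeries.coeff_expand_of_not_dvd 2 two_ne_zero _ h2, zero_mul]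
  · intro a _
    simp only
    rw [PowerSeries.coeff_expand_mul, coeff_U]

lemma U_X_even (k : ℕ) : U (X ^ (2 * k)) = X ^ k := by
  ext n
  rw [coeff_U, coeff_X_pow, coeff_X_pow]
  congr 1
  simp

lemma U_X_odd (k : ℕ) : U (X ^ (2 * k + 1)) = 0 := by
  ext n
  rw [coeff_U, coeff_X_pow, if_neg (by omega)]
  simp

lemma U0 : U 1 = 1 := by simpa using U_X_even 0
lemma U1 : U X = 0 := by simpa using U_X_odd 0
lemma U2 : U (X ^ 2) = X := by simpa using U_X_even 1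
lemma U3 : U (X ^ 3) = 0 := by simpa using U_X_odd 1
lemma U4 : U (X ^ 4) = X ^ 2 := by simpa using U_X_even 2
lemma U5 : U (X ^ 5) = 0 := by simpa using U_X_odd 2

/-- `t = 1/(1-x)` -/
def t : ℤ⟦X⟧ := mk 1
/-- `z = x/(1-x)^2` -/
noncomputable def z : ℤ⟦X⟧ := X * t ^ 2
/-- `τ = x/(1-x)` -/
noncomputable def τ : ℤ⟦X⟧ := X * t

lemma t_mul : t * (1 - X) = 1 := mk_one_mul_one_sub_eq_one ℤ

lemma Et_mul : E t * (1 - X ^ 2) = 1 := by
  have := congrArg E t_mul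
  simpa [map_mul, map_sub, map_one] using this

lemma t_eq : t = (1 + X) * E t := by
  have h1 := t_mul
  have h2 := Et_mul
  linear_combination (1 + X) * E t * h1 - t * h2

lemma U_Et (k : ℕ) (f : ℤ⟦X⟧) : U ((E t) ^ k * f) = t ^ k * U f := by
  rw [← map_pow, U_E_mul]

lemma U_z : U z = 2 * z := by
  have h : z = (E t) ^ 2 * (X + (2 : ℤ) • X ^ 2 + X ^ 3) := by
    rw [z, zsmul_eq_mul]
    have ht := t_eq
    generalize E t = s at ht ⊢
    rw [ht]; push_cast; ring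
  rw [h, U_Et, map_add, map_add, map_zsmul, U1, U2, U3, ← h, z, zsmul_eq_mul]
  push_cast; ring

lemma U_τ : U τ = τ := by
  have h : τ = (E t) ^ 1 * (X + X ^ 2) := by
    rw [τ]
    have ht := t_eq
    generalize E t = s at ht ⊢
    rw [ht]; ring
  rw [h, U_Et, map_add, U1, U2, ← h, τ]; ring

lemma U_zτ : U (z * τ) = 4 * z * τ + z := by
  have h : z * τ = (E t) ^ 3 * (X ^ 2 + (3 : ℤ) • X ^ 3 + (3 : ℤ) • X ^ 4 + X ^ 5) := by
    rw [z, τ, zsmul_eq_mul, zsmul_eq_mul]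
    have ht := t_eq
    generalize E t = s at ht ⊢
    rw [ht]; push_cast; ring
  rw [h, U_Et, map_add, map_add, map_add, map_zsmul, map_zsmul, U2, U3, U4, U5, zsmul_eq_mul]
  rw [z, τ]
  push_cast
  linear_combination (X * t ^ 2) * t_mul

lemma U_Xz : U (X * z) = 2 * z - τ := by
  have h : X * z = (E t) ^ 2 * (X ^ 2 + (2 : ℤ) • X ^ 3 + X ^ 4) := by
    rw [z, zsmul_eq_mul]
    have ht := t_eq
    generalize E t = s at ht ⊢
    rw [ht]; push_cast; ring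
  rw [h, U_Et, map_add, map_add, map_zsmul, U2, U3, U4, zsmul_eq_mul, z, τ]
  push_cast
  linear_combination (-X * t) * t_mul

lemma z_sq : z ^ 2 = 4 * E z * z + E z := by
  have h1 : E z = X ^ 2 * (E t) ^ 2 := by
    rw [z, map_mul, map_pow]; simp
  rw [h1, z]
  have h2 := Et_mul
  have ht := t_eq
  generalize E t = s at h2 ht ⊢
  rw [ht]
  linear_combination (X ^ 2 * s ^ 2 * (s * (1 - X ^ 2) + 1)) * h2

lemma two_z_sub : 2 * z - τ = (1 + X) * z := by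
  rw [z, τ]
  linear_combination (X * t) * t_mul

lemma U_rec (j : ℕ) (f : ℤ⟦X⟧) : U (z ^ (j + 2) * f) = 4 * z * U (z ^ (j + 1) * f) + z * U (z ^ j * f) := by
  have h : z ^ (j + 2) * f = E z * ((4 : ℤ) • (z ^ (j + 1) * f) + z ^ j * f) := by
    rw [pow_add, z_sq, zsmul_eq_mul]; push_cast; ring
  rw [h, U_E_mul, map_add, map_zsmul, zsmul_eq_mul]; push_cast; ring

/-- the sequence `r` -/
noncomputable def r : ℕ → ℤ⟦X⟧
  | 0 => 0
  | 1 => 1
  | j + 2 => 4 * z * r (j + 1) + z * r j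

lemma r_ss (j : ℕ) : r (j + 2) = 4 * z * r (j + 1) + z * r j := by rw [r]

lemma U_pow (j : ℕ) (f : ℤ⟦X⟧) : U (z ^ (j + 1) * f) = r (j + 1) * U (z * f) + z * r j * U f := by
  induction j using Nat.twoStepInduction with
  | zero => simp [r]
  | one => rw [U_rec]; simp [r]
  | more j ih1 ih2 =>
    rw [show j + 2 + 1 = (j + 1) + 2 from rfl, U_rec, ih2, ih1]
    rw [r_ss (j + 1), show j + 1 + 1 = j + 2 from rfl, r_ss j]
    ring

/-- coefficients of `r (2 e + i)` -/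
def κ (e i l : ℕ) : ℤ := if i ≤ 2 * l + 1 then ((e + l).choose (2 * l + 1 - i) : ℤ) * 4 ^ (2 * l + 1 - i) else 0

noncomputable def Rp (e i : ℕ) : ℤ⟦X⟧ := ∑ l ∈ range (e + i), (κ e i l) • z ^ l

lemma κ_rec (i l : ℕ) : κ 0 (i + 2) (l + 1) = 4 * κ 0 (i + 1) l + κ 0 i l := by
  unfold κ
  rcases Nat.lt_trichotomy i (2 * l + 1) with h | h | h
  · rw [if_pos (by omega), if_pos (by omega), if_pos (by omega)]
    have e1 : 2 * (l + 1) + 1 - (i + 2) = (2 * l - i) + 1 := by omega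
    have e2 : 2 * l + 1 - (i + 1) = 2 * l - i := by omega
    have e3 : 2 * l + 1 - i = (2 * l - i) + 1 := by omega
    rw [e1, e2, e3, zero_add, zero_add, Nat.choose_succ_succ]
    push_cast
    ring
  · rw [if_pos (by omega), if_neg (by omega), if_pos (by omega)]
    have e1 : 2 * (l + 1) + 1 - (i + 2) = 0 := by omega
    have e3 : 2 * l + 1 - i = 0 := by omega
    rw [e1, e3]
    simp
  · rw [if_neg (by omega), if_neg (by omega), if_neg (by omega)]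
    simp

lemma κ_zero_of_le (e i l : ℕ) (h : e + i ≤ l) : κ e i l = 0 := by
  unfold κ
  split_ifs with h1
  · rw [Nat.choose_eq_zero_of_lt (by omega)]; simp
  · rfl

lemma r_closed (i : ℕ) : r i = ∑ l ∈ range i, (κ 0 i l) • z ^ l := by
  induction i using Nat.twoStepInduction with
  | zero => simp [r]
  | one => simp [r, κ]
  | more i ih1 ih2 =>
    rw [r, ih1, ih2, Finset.sum_range_succ' (n := i + 1)]
    have h0 : κ 0 (i + 2) 0 = 0 := by unfold κ; rw [if_neg (by omega)]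
    rw [h0, zero_smul, add_zero, Finset.mul_sum, Finset.mul_sum]
    have h1 : ∑ l ∈ range i, z * (κ 0 i l) • z ^ l = ∑ l ∈ range (i + 1), z * (κ 0 i l) • z ^ l := by
      rw [Finset.sum_range_succ, κ_zero_of_le 0 i i (by omega)]
      simp
    rw [h1, ← Finset.sum_add_distrib]
    refine Finset.sum_congr rfl fun l _ => ?_
    rw [κ_rec]
    simp only [zsmul_eq_mul]
    push_cast
    ring

lemma r_eq (e i : ℕ) : r (2 * e + i) = z ^ e * Rp e i := by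
  rw [r_closed, Rp, show 2 * e + i = e + (e + i) by ring, Finset.sum_range_add, Finset.mul_sum]
  rw [Finset.sum_eq_zero, zero_add]
  · refine Finset.sum_congr rfl fun l _ => ?_
    have : κ 0 (e + (e + i)) (e + l) = κ e i l := by
      unfold κ
      by_cases h : i ≤ 2 * l + 1
      · rw [if_pos h, if_pos (by omega)]
        have e1 : 2 * (e + l) + 1 - (e + (e + i)) = 2 * l + 1 - i := by omega
        rw [e1, zero_add]
      · rw [if_neg h, if_neg (by omega)]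
    rw [this]
    simp only [zsmul_eq_mul]
    ring
  · intro l hl
    have hl := Finset.mem_range.1 hl
    have : κ 0 (e + (e + i)) l = 0 := by
      unfold κ
      rw [if_neg (by omega)]
    rw [this, zero_smul]

lemma Xt_pow (k : ℕ) : X ^ k * t ^ (2 * k) = z ^ k := by
  rw [z, mul_pow, ← pow_mul]

lemma X_ne : (X : ℤ⟦X⟧) ≠ 0 := X_ne_zero

lemma U_X2 (k : ℕ) (f : ℤ⟦X⟧) : U (X ^ (2 * k) * f) = X ^ k * U f := by
  have : (X : ℤ⟦X⟧) ^ (2 * k) = E (X ^ k) := by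
    rw [map_pow, PowerSeries.expand_X, pow_mul]
  rw [this, U_E_mul]

/-- S1 -/
lemma S1 (e i : ℕ) : U (t ^ (4 * (e + 1)) * z ^ i) = t ^ (2 * (e + 1)) * ((2 : ℤ) • Rp e (i + 2) + Rp e (i + 1)) := by
  apply mul_left_cancel₀ (pow_ne_zero (e + 1) X_ne)
  rw [← U_X2]
  have h1 : (X : ℤ⟦X⟧) ^ (2 * (e + 1)) * (t ^ (4 * (e + 1)) * z ^ i) = z ^ ((2 * e + i + 1) + 1) * 1 := by
    have := Xt_pow (2 * (e + 1))
    rw [show 2 * (2 * (e + 1)) = 4 * (e + 1) by ring] at this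
    rw [← mul_assoc, this, mul_one, ← pow_add]; congr 1; ring
  rw [h1, U_pow, mul_one, U_z, U0]
  rw [show 2 * e + i + 1 + 1 = 2 * e + (i + 2) by ring, show 2 * e + i + 1 = 2 * e + (i + 1) by ring, r_eq, r_eq]
  rw [← mul_assoc (X ^ (e + 1)), Xt_pow, zsmul_eq_mul]
  push_cast
  ring

/-- S2 -/
lemma S2 (e i : ℕ) : U (t ^ (2 * (2 * e + 1)) * z ^ i) = (1 + X) * t ^ (2 * (e + 1)) * Rp e (i + 1) := by
  apply mul_left_cancel₀ (pow_ne_zero (e + 1) X_ne)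
  rw [← U_X2]
  have h1 : (X : ℤ⟦X⟧) ^ (2 * (e + 1)) * (t ^ (2 * (2 * e + 1)) * z ^ i) = z ^ ((2 * e + i) + 1) * X := by
    have := Xt_pow (2 * e + 1)
    rw [show 2 * (e + 1) = (2 * e + 1) + 1 by ring, pow_succ]
    calc (X : ℤ⟦X⟧) ^ (2 * e + 1) * X * (t ^ (2 * (2 * e + 1)) * z ^ i) = (X ^ (2 * e + 1) * t ^ (2 * (2 * e + 1))) * z ^ i * X := by ring
      _ = _ := by rw [this, ← pow_add]; congr 2; ring
  rw [h1, U_pow, mul_comm z X, U_Xz, U1, two_z_sub, mul_zero, add_zero]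
  rw [show 2 * e + i + 1 = 2 * e + (i + 1) by ring, r_eq]
  calc z ^ e * Rp e (i + 1) * ((1 + X) * z) = (1 + X) * Rp e (i + 1) * z ^ (e + 1) := by ring
    _ = _ := by rw [← Xt_pow]; ring

/-- S3 -/
lemma S3 (e i : ℕ) : U ((1 + X) * t ^ (4 * (e + 1)) * z ^ i) =
    t ^ (2 * (e + 1)) * (((4 : ℤ) • Rp e (i + 2) + Rp e (i + 1)) - τ * Rp (e + 1) i) := by
  have h0 : (1 + X) * t ^ (4 * (e + 1)) * z ^ i = t ^ (4 * (e + 1)) * z ^ i + X * t ^ (4 * (e + 1)) * z ^ i := by ring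
  rw [h0, map_add, S1]
  apply mul_left_cancel₀ (pow_ne_zero (e + 1) X_ne)
  rw [mul_add (X ^ (e + 1)), ← U_X2 (e + 1) (X * t ^ (4 * (e + 1)) * z ^ i)]
  have h1 : (X : ℤ⟦X⟧) ^ (2 * (e + 1)) * (X * t ^ (4 * (e + 1)) * z ^ i) = z ^ ((2 * e + i + 1) + 1) * X := by
    have := Xt_pow (2 * (e + 1))
    rw [show 2 * (2 * (e + 1)) = 4 * (e + 1) by ring] at this
    calc (X : ℤ⟦X⟧) ^ (2 * (e + 1)) * (X * t ^ (4 * (e + 1)) * z ^ i) = (X ^ (2 * (e + 1)) * t ^ (4 * (e + 1))) * z ^ i * X := by ring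
      _ = _ := by rw [this, ← pow_add]; congr 2; ring
  rw [h1, U_pow, mul_comm z X, U_Xz, U1, mul_zero, add_zero]
  have h2 : r (2 * e + i + 1 + 1) = z ^ e * Rp e (i + 2) := by
    rw [show 2 * e + i + 1 + 1 = 2 * e + (i + 2) by ring, r_eq]
  have h3 : r (2 * e + i + 1 + 1) = z ^ (e + 1) * Rp (e + 1) i := by
    rw [show 2 * e + i + 1 + 1 = 2 * (e + 1) + i by ring, r_eq]
  rw [mul_sub, h3]
  have h4 : z ^ (e + 1) * Rp (e + 1) i * (2 * z) = 2 * z ^ (e + 1) * Rp e (i + 2) := by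
    rw [← h3, h2]; ring
  rw [h4, ← Xt_pow]
  simp only [zsmul_eq_mul]
  push_cast
  ring

/-- S4 -/
lemma S4 (e i : ℕ) : U (t ^ (4 * (e + 1)) * (τ * z ^ i)) =
    t ^ (2 * (e + 1)) * (Rp e (i + 2) + τ * Rp (e + 1) (i + 1)) := by
  apply mul_left_cancel₀ (pow_ne_zero (e + 1) X_ne)
  rw [← U_X2]
  have h1 : (X : ℤ⟦X⟧) ^ (2 * (e + 1)) * (t ^ (4 * (e + 1)) * (τ * z ^ i)) = z ^ ((2 * e + i + 1) + 1) * τ := by
    have := Xt_pow (2 * (e + 1))
    rw [show 2 * (2 * (e + 1)) = 4 * (e + 1) by ring] at this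
    calc (X : ℤ⟦X⟧) ^ (2 * (e + 1)) * (t ^ (4 * (e + 1)) * (τ * z ^ i)) = (X ^ (2 * (e + 1)) * t ^ (4 * (e + 1))) * z ^ i * τ := by ring
      _ = _ := by rw [this, ← pow_add]; congr 2; ring
  rw [h1, U_pow, U_zτ, U_τ]
  have h2 : r (2 * e + i + 1 + 1) = z ^ e * Rp e (i + 2) := by
    rw [show 2 * e + i + 1 + 1 = 2 * e + (i + 2) by ring, r_eq]
  have h5 : r (2 * e + i + 1 + 1 + 1) = z ^ (e + 1) * Rp (e + 1) (i + 1) := by
    rw [show 2 * e + i + 1 + 1 + 1 = 2 * (e + 1) + (i + 1) by ring, r_eq]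
  have h6 : r (2 * e + i + 1 + 1 + 1) = 4 * z * r (2 * e + i + 1 + 1) + z * r (2 * e + i + 1) := by
    rw [r_ss]
  calc r (2 * e + i + 1 + 1) * (4 * z * τ + z) + z * r (2 * e + i + 1) * τ 
      = τ * (4 * z * r (2 * e + i + 1 + 1) + z * r (2 * e + i + 1)) + z * r (2 * e + i + 1 + 1) := by ring
    _ = τ * (z ^ (e + 1) * Rp (e + 1) (i + 1)) + z * (z ^ e * Rp e (i + 2)) := by rw [← h6, h5, h2]
    _ = _ := by
      have h7 := Xt_pow (e + 1)
      rw [← mul_assoc (X ^ (e + 1)), h7]; ring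


/-! ### valuations -/

lemma κ_dvd0 (e i l : ℕ) (h : i ≤ 2 * l + 1) : (2 : ℤ) ^ (2 * (2 * l + 1 - i)) ∣ κ e i l := by
  unfold κ
  rw [if_pos h, pow_mul]
  norm_num
  
lemma choose_dvd (n a j : ℕ) (ha : 1 ≤ a) (haj : a ≤ j) : 2 ^ (n + 1 + j) ∣ 4 ^ j * (2 ^ n).choose a := by
  -- a * C(2^n, a) = 2^n * C(2^n - 1, a-1)
  have h1 : a * (2 ^ n).choose a = 2 ^ n * (2 ^ n - 1).choose (a - 1) := by
    obtain ⟨b, rfl⟩ : ∃ b, a = b + 1 := ⟨a - 1, by omega⟩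
    obtain ⟨M, hM⟩ : ∃ M, 2 ^ n = M + 1 := ⟨2 ^ n - 1, by have := Nat.two_pow_pos n; omega⟩
    rw [hM]
    have := Nat.add_one_mul_choose_eq M b
    simp only [Nat.add_sub_cancel]
    linarith
  obtain ⟨v, u, hu, hv⟩ := Nat.exists_eq_pow_mul_and_not_dvd (show a ≠ 0 by omega) 2 (by norm_num)
  have hvj : v < j := by
    have h2 : 2 ^ v ≤ a := Nat.le_of_dvd (by omega) ⟨u, hv⟩
    have h3 : v < 2 ^ v := Nat.lt_two_pow_self
    omega
  -- 2^n ∣ 2^v * C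
  have hcop : Nat.Coprime (2 ^ n) u := by
    apply Nat.Coprime.pow_left
    exact (Nat.Prime.coprime_iff_not_dvd Nat.prime_two).2 hu
  have h4 : 2 ^ n ∣ 2 ^ v * (2 ^ n).choose a := by
    apply hcop.dvd_of_dvd_mul_left
    rw [← mul_assoc, mul_comm u, ← hv, h1]
    exact dvd_mul_right _ _
  obtain ⟨w, hw⟩ := h4
  refine ⟨2 ^ (j - 1 - v) * w, ?_⟩
  have h5 : (4 : ℕ) ^ j = 2 ^ (j + 1) * 2 ^ (j - 1 - v) * 2 ^ v := by
    rw [← pow_add, ← pow_add, show (4 : ℕ) = 2 ^ 2 by norm_num, ← pow_mul]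
    congr 1; omega
  calc 4 ^ j * (2 ^ n).choose a = 2 ^ (j + 1) * 2 ^ (j - 1 - v) * (2 ^ v * (2 ^ n).choose a) := by rw [h5]; ring
    _ = 2 ^ (j + 1) * 2 ^ (j - 1 - v) * (2 ^ n * w) := by rw [hw]
    _ = 2 ^ (n + 1 + j) * (2 ^ (j - 1 - v) * w) := by rw [show n + 1 + j = (j + 1) + n by ring, pow_add]; ring

lemma choose_dvd2 (n c j : ℕ) (hcj : c < j) : 2 ^ (n + 1 + j) ∣ 4 ^ j * (2 ^ n + c).choose j := by
  rw [Nat.add_choose_eq, Finset.mul_sum]
  refine Finset.dvd_sum fun ab hab => ?_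
  have hab := HasAntidiagonal.mem_antidiagonal.1 hab
  by_cases hb : ab.2 ≤ c
  · rw [← mul_assoc]
    exact Dvd.dvd.mul_right (choose_dvd n ab.1 j (by omega) (by omega)) _
  · rw [Nat.choose_eq_zero_of_lt (by omega : c < ab.2)]
    simp

lemma κ_dvd1 (n e i l c : ℕ) (hel : e + l = 2 ^ n + c) (h : i ≤ 2 * l + 1) (hc : c < 2 * l + 1 - i) :
    (2 : ℤ) ^ (n + 1 + (2 * l + 1 - i)) ∣ κ e i l := by
  unfold κ
  rw [if_pos h, hel]
  have h1 := choose_dvd2 n c (2 * l + 1 - i) hc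
  have h2 : (2 : ℤ) ^ (n + 1 + (2 * l + 1 - i)) ∣ 4 ^ (2 * l + 1 - i) * ((2 ^ n + c).choose (2 * l + 1 - i) : ℤ) := by
    exact_mod_cast h1
  obtain ⟨q, hq⟩ := h2
  exact ⟨q, by rw [← hq]; ring⟩

/-! ### lattices -/

/-- the group generated by `2^(w l) z^l`, `l ≥ l0`. -/
noncomputable def Lat (w : ℕ → ℕ) (l0 : ℕ) : AddSubgroup ℤ⟦X⟧ :=
  AddSubgroup.closure {f | ∃ l, l0 ≤ l ∧ f = ((2 : ℤ) ^ w l) • z ^ l}

lemma mem_Lat_mono (w : ℕ → ℕ) (l0 l : ℕ) (c : ℤ) (hl : l0 ≤ l) (hc : (2 : ℤ) ^ w l ∣ c) : c • z ^ l ∈ Lat w l0 := by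
  obtain ⟨q, rfl⟩ := hc
  rw [mul_comm, mul_smul]
  have h : ((2 : ℤ) ^ w l) • z ^ l ∈ Lat w l0 := by
    unfold Lat
    exact AddSubgroup.subset_closure ⟨l, hl, rfl⟩
  exact AddSubgroup.zsmul_mem _ h q

lemma mem_Lat_sum (w : ℕ → ℕ) (l0 K : ℕ) (c : ℕ → ℤ) (h : ∀ l, l0 ≤ l → (2 : ℤ) ^ w l ∣ c l) (h0 : ∀ l < l0, c l = 0) :
    ∑ l ∈ range K, c l • z ^ l ∈ Lat w l0 := by
  refine AddSubgroup.sum_mem _ fun l _ => ?_
  rcases Nat.lt_or_ge l l0 with hl | hl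
  · rw [h0 l hl, zero_smul]; exact AddSubgroup.zero_mem _
  · exact mem_Lat_mono w l0 l _ hl (h l hl)

/-- `a • Rp e i ∈ Lat w l0` -/
lemma smul_Rp_mem (w : ℕ → ℕ) (l0 : ℕ) (a : ℤ) (e i : ℕ) (h : ∀ l, l0 ≤ l → (2 : ℤ) ^ w l ∣ a * κ e i l) (h0 : ∀ l < l0, a * κ e i l = 0) :
    a • Rp e i ∈ Lat w l0 := by
  rw [Rp, Finset.smul_sum]
  simp only [← mul_smul]
  exact mem_Lat_sum w l0 _ (fun l => a * κ e i l) h h0

lemma Lat_induct (w : ℕ → ℕ) (l0 : ℕ) (P : ℤ⟦X⟧ → Prop) (hadd : ∀ f g, P f → P g → P (f + g)) (hneg : ∀ f, P f → P (-f)) (h0 : P 0)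
    (hgen : ∀ l, l0 ≤ l → P (((2 : ℤ) ^ w l) • z ^ l)) : ∀ f ∈ Lat w l0, P f := by
  intro f hf
  refine AddSubgroup.closure_induction (p := fun f _ => P f) ?_ h0 (fun f g _ _ => hadd f g) (fun f _ => hneg f) hf
  rintro x ⟨l, hl, rfl⟩
  exact hgen l hl

/-- weights at stage `f` (`h = t^{2(N-f)} F`) -/
def φ (n f i : ℕ) : ℕ := if i ≤ f then i else n + 2 + i

/-- **Step**: stage `2 f` to stage `f` (`N = 2^n = e + 1 + f`). -/
lemma step (n e f : ℕ) (hN : e + 1 + f = 2 ^ n) (F : ℤ⟦X⟧) (hF : F ∈ Lat (φ n (2 * f)) 0) :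
    ∃ G ∈ Lat (φ n f) 0, U (t ^ (4 * (e + 1)) * F) = t ^ (2 * (e + 1)) * G := by
  refine Lat_induct (φ n (2 * f)) 0 (fun F => ∃ G ∈ Lat (φ n f) 0, U (t ^ (4 * (e + 1)) * F) = t ^ (2 * (e + 1)) * G) ?_ ?_ ?_ ?_ F hF
  · rintro f1 f2 ⟨G1, h1, e1⟩ ⟨G2, h2, e2⟩
    exact ⟨G1 + G2, AddSubgroup.add_mem _ h1 h2, by rw [mul_add, map_add, e1, e2]; ring⟩
  · rintro f1 ⟨G1, h1, e1⟩
    exact ⟨-G1, AddSubgroup.neg_mem _ h1, by rw [mul_neg, map_neg, e1]; ring⟩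
  · exact ⟨0, AddSubgroup.zero_mem _, by simp⟩
  · intro i _
    refine ⟨((2 : ℤ) ^ φ n (2 * f) i * 2) • Rp e (i + 2) + ((2 : ℤ) ^ φ n (2 * f) i) • Rp e (i + 1), ?_, ?_⟩
    · refine AddSubgroup.add_mem _ (smul_Rp_mem _ _ _ _ _ (fun l _ => ?_) (by omega)) (smul_Rp_mem _ _ _ _ _ (fun l _ => ?_) (by omega))
      · -- 2 κ e (i+2) l
        by_cases hil : i + 2 ≤ 2 * l + 1
        · by_cases hlf : f < l ∧ i ≤ 2 * f
          · have hc : e + l = 2 ^ n + (l - f - 1) := by omega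
            have h1 := κ_dvd1 n e (i + 2) l (l - f - 1) hc hil (by omega)
            have h2 : (2 : ℤ) ^ (φ n (2 * f) i + 1 + (n + 1 + (2 * l + 1 - (i + 2)))) ∣ (2 : ℤ) ^ φ n (2 * f) i * 2 * κ e (i + 2) l := by
              rw [pow_add, pow_add, pow_one]
              exact mul_dvd_mul dvd_rfl h1
            refine dvd_trans (pow_dvd_pow 2 ?_) h2
            unfold φ
            rw [if_neg (by omega), if_pos (by omega)]
            omega
          · have h1 := κ_dvd0 e (i + 2) l hil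
            have h2 : (2 : ℤ) ^ (φ n (2 * f) i + 1 + (2 * (2 * l + 1 - (i + 2)))) ∣ (2 : ℤ) ^ φ n (2 * f) i * 2 * κ e (i + 2) l := by
              rw [pow_add, pow_add, pow_one]
              exact mul_dvd_mul dvd_rfl h1
            refine dvd_trans (pow_dvd_pow 2 ?_) h2
            unfold φ
            split_ifs <;> omega
        · have : κ e (i + 2) l = 0 := by unfold κ; rw [if_neg hil]
          rw [this, mul_zero]; exact dvd_zero _
      · by_cases hil : i + 1 ≤ 2 * l + 1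
        · by_cases hlf : f < l ∧ i ≤ 2 * f
          · have hc : e + l = 2 ^ n + (l - f - 1) := by omega
            have h1 := κ_dvd1 n e (i + 1) l (l - f - 1) hc hil (by omega)
            have h2 : (2 : ℤ) ^ (φ n (2 * f) i + (n + 1 + (2 * l + 1 - (i + 1)))) ∣ (2 : ℤ) ^ φ n (2 * f) i * κ e (i + 1) l := by
              rw [pow_add]
              exact mul_dvd_mul dvd_rfl h1
            refine dvd_trans (pow_dvd_pow 2 ?_) h2
            unfold φ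
            rw [if_neg (by omega), if_pos (by omega)]
            omega
          · have h1 := κ_dvd0 e (i + 1) l hil
            have h2 : (2 : ℤ) ^ (φ n (2 * f) i + (2 * (2 * l + 1 - (i + 1)))) ∣ (2 : ℤ) ^ φ n (2 * f) i * κ e (i + 1) l := by
              rw [pow_add]
              exact mul_dvd_mul dvd_rfl h1
            refine dvd_trans (pow_dvd_pow 2 ?_) h2
            unfold φ
            split_ifs <;> omega
        · have : κ e (i + 1) l = 0 := by unfold κ; rw [if_neg hil]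
          rw [this, mul_zero]; exact dvd_zero _
    · have : t ^ (4 * (e + 1)) * (((2 : ℤ) ^ φ n (2 * f) i) • z ^ i) = ((2 : ℤ) ^ φ n (2 * f) i) • (t ^ (4 * (e + 1)) * z ^ i) := by
        rw [mul_smul_comm]
      rw [this, map_zsmul, S1]
      simp only [zsmul_eq_mul]
      push_cast
      ring


lemma dvdA (a e i l w : ℕ) (h : i ≤ 2 * l + 1 → w ≤ a + 2 * (2 * l + 1 - i)) : (2 : ℤ) ^ w ∣ (2 : ℤ) ^ a * κ e i l := by
  by_cases hil : i ≤ 2 * l + 1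
  · have h1 := κ_dvd0 e i l hil
    refine dvd_trans (pow_dvd_pow 2 (h hil)) ?_
    rw [pow_add]
    exact mul_dvd_mul dvd_rfl h1
  · have : κ e i l = 0 := by unfold κ; rw [if_neg hil]
    rw [this, mul_zero]; exact dvd_zero _

lemma dvdB (n a e i l w c : ℕ) (hel : e + l = 2 ^ n + c) (hc : i ≤ 2 * l + 1 → c < 2 * l + 1 - i)
    (h : i ≤ 2 * l + 1 → w ≤ a + (n + 1 + (2 * l + 1 - i))) : (2 : ℤ) ^ w ∣ (2 : ℤ) ^ a * κ e i l := by
  by_cases hil : i ≤ 2 * l + 1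
  · have h1 := κ_dvd1 n e i l c hel hil (hc hil)
    refine dvd_trans (pow_dvd_pow 2 (h hil)) ?_
    rw [pow_add]
    exact mul_dvd_mul dvd_rfl h1
  · have : κ e i l = 0 := by unfold κ; rw [if_neg hil]
    rw [this, mul_zero]; exact dvd_zero _

lemma κ_zero (e i : ℕ) (h : 2 ≤ i) : κ e i 0 = 0 := by unfold κ; rw [if_neg (by omega)]
lemma κ_one (e : ℕ) : κ e 1 0 = 1 := by unfold κ; simp

/-- stage `f = 1` to the next stage. -/
lemma step2 (n e : ℕ) (hN : e + 1 = 2 ^ n) (F : ℤ⟦X⟧) (hF : F ∈ Lat (φ n 1) 0) :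
    ∃ G ∈ Lat (φ n 0) 0, U (t ^ (2 * (2 * e + 1)) * F) = (1 + X) * t ^ (2 * (e + 1)) * G := by
  refine Lat_induct (φ n 1) 0 (fun F => ∃ G ∈ Lat (φ n 0) 0, U (t ^ (2 * (2 * e + 1)) * F) = (1 + X) * t ^ (2 * (e + 1)) * G) ?_ ?_ ?_ ?_ F hF
  · rintro f1 f2 ⟨G1, h1, e1⟩ ⟨G2, h2, e2⟩
    exact ⟨G1 + G2, AddSubgroup.add_mem _ h1 h2, by rw [mul_add, map_add, e1, e2]; ring⟩
  · rintro f1 ⟨G1, h1, e1⟩
    exact ⟨-G1, AddSubgroup.neg_mem _ h1, by rw [mul_neg, map_neg, e1]; ring⟩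
  · exact ⟨0, AddSubgroup.zero_mem _, by simp⟩
  · intro i _
    refine ⟨((2 : ℤ) ^ φ n 1 i) • Rp e (i + 1), ?_, ?_⟩
    · refine smul_Rp_mem _ _ _ _ _ (fun l _ => ?_) (by omega)
      rcases Nat.eq_zero_or_pos l with rfl | hl
      · simp [φ]
      · rcases Nat.lt_or_ge i 2 with hi | hi
        · refine dvdB n _ _ _ _ _ (l - 1) (by omega) (fun h => by omega) (fun h => ?_)
          unfold φ
          rw [if_neg (by omega), if_pos (by omega)]
          omega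
        · refine dvdA _ _ _ _ _ (fun h => ?_)
          unfold φ
          rw [if_neg (by omega), if_neg (by omega)]
          omega
    · rw [mul_smul_comm, map_zsmul, S2]
      simp only [zsmul_eq_mul]
      ring

/-- weights of the `τ`-part at stage `m+1` -/
def σ (n l : ℕ) : ℕ := if l = 0 then n + 2 else n + 3 + l

lemma step3 (n e : ℕ) (hN : e + 1 = 2 ^ n) (F : ℤ⟦X⟧) (hF : F ∈ Lat (φ n 0) 0) :
    ∃ A ∈ Lat (φ n 0) 0, ∃ B ∈ Lat (σ n) 0, U ((1 + X) * t ^ (4 * (e + 1)) * F) = t ^ (2 * (e + 1)) * (A + τ * B) := by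
  refine Lat_induct (φ n 0) 0 (fun F => ∃ A ∈ Lat (φ n 0) 0, ∃ B ∈ Lat (σ n) 0, U ((1 + X) * t ^ (4 * (e + 1)) * F) = t ^ (2 * (e + 1)) * (A + τ * B)) ?_ ?_ ?_ ?_ F hF
  · rintro f1 f2 ⟨A1, h1, B1, h1', e1⟩ ⟨A2, h2, B2, h2', e2⟩
    exact ⟨A1 + A2, AddSubgroup.add_mem _ h1 h2, B1 + B2, AddSubgroup.add_mem _ h1' h2', by rw [mul_add, map_add, e1, e2]; ring⟩
  · rintro f1 ⟨A1, h1, B1, h1', e1⟩
    exact ⟨-A1, AddSubgroup.neg_mem _ h1, -B1, AddSubgroup.neg_mem _ h1', by rw [mul_neg, map_neg, e1]; ring⟩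
  · exact ⟨0, AddSubgroup.zero_mem _, 0, AddSubgroup.zero_mem _, by simp⟩
  · intro i _
    refine ⟨((2 : ℤ) ^ (φ n 0 i + 2)) • Rp e (i + 2) + ((2 : ℤ) ^ φ n 0 i) • Rp e (i + 1), ?_, -(((2 : ℤ) ^ φ n 0 i) • Rp (e + 1) i), ?_, ?_⟩
    · refine AddSubgroup.add_mem _ (smul_Rp_mem _ _ _ _ _ (fun l _ => ?_) (by omega)) (smul_Rp_mem _ _ _ _ _ (fun l _ => ?_) (by omega))
      · rcases Nat.eq_zero_or_pos l with rfl | hl
        · simp [φ]
        · rcases Nat.eq_zero_or_pos i with rfl | hi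
          · refine dvdB n _ _ _ _ _ (l - 1) (by omega) (fun h => by omega) (fun h => ?_)
            unfold φ
            rw [if_neg (by omega), if_pos (by omega)]
            omega
          · refine dvdA _ _ _ _ _ (fun h => ?_)
            unfold φ
            rw [if_neg (by omega), if_neg (by omega)]
            omega
      · rcases Nat.eq_zero_or_pos l with rfl | hl
        · simp [φ]
        · rcases Nat.eq_zero_or_pos i with rfl | hi
          · refine dvdB n _ _ _ _ _ (l - 1) (by omega) (fun h => by omega) (fun h => ?_)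
            unfold φ
            rw [if_neg (by omega), if_pos (by omega)]
            omega
          · refine dvdA _ _ _ _ _ (fun h => ?_)
            unfold φ
            rw [if_neg (by omega), if_neg (by omega)]
            omega
    · refine AddSubgroup.neg_mem _ (smul_Rp_mem _ _ _ _ _ (fun l _ => ?_) (by omega))
      rcases Nat.eq_zero_or_pos i with rfl | hi
      · refine dvdB n _ _ _ _ _ l (by omega) (fun h => by omega) (fun h => ?_)
        unfold φ σ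
        split_ifs <;> omega
      · refine dvdA _ _ _ _ _ (fun h => ?_)
        unfold φ σ
        rw [if_neg (show ¬ i ≤ 0 by omega)]
        split_ifs <;> omega
    · rw [mul_smul_comm, map_zsmul, S3]
      simp only [zsmul_eq_mul]
      push_cast
      ring

/-- weights -/
def α (k l : ℕ) : ℕ := k + l

lemma Rp_sub_one (e : ℕ) : Rp e 1 - 1 = ∑ l ∈ range (e + 1), (κ e 1 l - if l = 0 then 1 else 0) • z ^ l := by
  rw [Rp]
  simp only [sub_smul, Finset.sum_sub_distrib]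
  congr 1
  rw [Finset.sum_eq_single 0]
  · simp
  · intro b _ hb
    rw [if_neg hb, zero_smul]
  · intro h
    exact absurd (Finset.mem_range.2 (Nat.succ_pos e)) h

lemma Rp_sub_one_mem (w : ℕ → ℕ) (a : ℕ) (e : ℕ) (h : ∀ l, 1 ≤ l → (2 : ℤ) ^ w l ∣ (2 : ℤ) ^ a * κ e 1 l) :
    ((2 : ℤ) ^ a) • (Rp e 1 - 1) ∈ Lat w 1 := by
  have h1 : ((2 : ℤ) ^ a) • (Rp e 1 - 1) = ∑ l ∈ range (e + 1), ((2 : ℤ) ^ a * (κ e 1 l - if l = 0 then 1 else 0)) • z ^ l := by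
    rw [Rp_sub_one, Finset.smul_sum]
    exact Finset.sum_congr rfl fun l _ => by rw [mul_smul]
  rw [h1]
  refine mem_Lat_sum w 1 _ (fun l => (2 : ℤ) ^ a * (κ e 1 l - if l = 0 then 1 else 0)) ?_ ?_
  · intro l hl
    rw [if_neg (by omega), sub_zero]
    exact h l hl
  · intro l hl
    have : l = 0 := by omega
    subst this
    simp [κ_one]

/-- first difference, `1`-part -/
lemma diffA (n e : ℕ) (hN : e + 1 = 2 ^ n) (F : ℤ⟦X⟧) (hF : F ∈ Lat (φ n 0) 0) :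
    ∃ A ∈ Lat (α (n + 2)) 1, ∃ B ∈ Lat (α (n + 3)) 1,
      U (t ^ (4 * (e + 1)) * F) - t ^ (2 * (e + 1)) * F = t ^ (2 * (e + 1)) * (A + τ * B) := by
  refine Lat_induct (φ n 0) 0 (fun F => ∃ A ∈ Lat (α (n + 2)) 1, ∃ B ∈ Lat (α (n + 3)) 1,
      U (t ^ (4 * (e + 1)) * F) - t ^ (2 * (e + 1)) * F = t ^ (2 * (e + 1)) * (A + τ * B)) ?_ ?_ ?_ ?_ F hF
  · rintro f1 f2 ⟨A1, h1, B1, h1', e1⟩ ⟨A2, h2, B2, h2', e2⟩
    exact ⟨A1 + A2, AddSubgroup.add_mem _ h1 h2, B1 + B2, AddSubgroup.add_mem _ h1' h2', by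
      rw [mul_add, map_add]; linear_combination e1 + e2⟩
  · rintro f1 ⟨A1, h1, B1, h1', e1⟩
    exact ⟨-A1, AddSubgroup.neg_mem _ h1, -B1, AddSubgroup.neg_mem _ h1', by
      rw [mul_neg, map_neg]; linear_combination -e1⟩
  · exact ⟨0, AddSubgroup.zero_mem _, 0, AddSubgroup.zero_mem _, by simp⟩
  · intro i _
    rcases Nat.eq_zero_or_pos i with rfl | hi
    · refine ⟨((2 : ℤ) ^ 1) • Rp e 2 + ((2 : ℤ) ^ 0) • (Rp e 1 - 1), ?_, 0, AddSubgroup.zero_mem _, ?_⟩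
      · refine AddSubgroup.add_mem _ (smul_Rp_mem _ _ _ _ _ (fun l hl => ?_) ?_) (Rp_sub_one_mem _ _ _ (fun l hl => ?_))
        · refine dvdB n _ _ _ _ _ (l - 1) (by omega) (fun h => by omega) (fun h => ?_)
          unfold α
          omega
        · intro l hl
          have : l = 0 := by omega
          subst this
          rw [κ_zero _ _ le_rfl, mul_zero]
        · refine dvdB n _ _ _ _ _ (l - 1) (by omega) (fun h => by omega) (fun h => ?_)
          unfold α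
          omega
      · have := S1 e 0
        simp only [pow_zero, mul_one, zero_add] at this
        simp only [φ, pow_zero, one_smul, mul_one, le_refl, if_true]
        rw [this]
        simp only [zsmul_eq_mul]
        push_cast
        ring
    · refine ⟨((2 : ℤ) ^ (n + 2 + i + 1)) • Rp e (i + 2) + ((2 : ℤ) ^ (n + 2 + i)) • Rp e (i + 1) - ((2 : ℤ) ^ (n + 2 + i)) • z ^ i, ?_, 0, AddSubgroup.zero_mem _, ?_⟩
      · refine AddSubgroup.sub_mem _ (AddSubgroup.add_mem _ (smul_Rp_mem _ _ _ _ _ (fun l hl => ?_) ?_) (smul_Rp_mem _ _ _ _ _ (fun l hl => ?_) ?_)) (mem_Lat_mono _ _ _ _ hi (pow_dvd_pow 2 ?_))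
        · refine dvdA _ _ _ _ _ (fun h => ?_)
          unfold α
          omega
        · intro l hl
          have : l = 0 := by omega
          subst this
          rw [κ_zero _ _ (by omega), mul_zero]
        · refine dvdA _ _ _ _ _ (fun h => ?_)
          unfold α
          omega
        · intro l hl
          have : l = 0 := by omega
          subst this
          rw [κ_zero _ _ (by omega), mul_zero]
        · unfold α
          omega
      · have hφ : φ n 0 i = n + 2 + i := by unfold φ; rw [if_neg (by omega)]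
        rw [hφ, mul_smul_comm, map_zsmul, S1]
        simp only [zsmul_eq_mul]
        push_cast
        ring

/-- first difference, `τ`-part -/
lemma diffB (n e : ℕ) (F : ℤ⟦X⟧) (hF : F ∈ Lat (σ n) 0) :
    ∃ A ∈ Lat (α (n + 2)) 1, ∃ B ∈ Lat (α (n + 3)) 1,
      U (t ^ (4 * (e + 1)) * (τ * F)) - t ^ (2 * (e + 1)) * (τ * F) = t ^ (2 * (e + 1)) * (A + τ * B) := by
  refine Lat_induct (σ n) 0 (fun F => ∃ A ∈ Lat (α (n + 2)) 1, ∃ B ∈ Lat (α (n + 3)) 1,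
      U (t ^ (4 * (e + 1)) * (τ * F)) - t ^ (2 * (e + 1)) * (τ * F) = t ^ (2 * (e + 1)) * (A + τ * B)) ?_ ?_ ?_ ?_ F hF
  · rintro f1 f2 ⟨A1, h1, B1, h1', e1⟩ ⟨A2, h2, B2, h2', e2⟩
    exact ⟨A1 + A2, AddSubgroup.add_mem _ h1 h2, B1 + B2, AddSubgroup.add_mem _ h1' h2', by
      rw [mul_add τ f1 f2, mul_add (t ^ (4 * (e + 1))), map_add]; linear_combination e1 + e2⟩
  · rintro f1 ⟨A1, h1, B1, h1', e1⟩
    exact ⟨-A1, AddSubgroup.neg_mem _ h1, -B1, AddSubgroup.neg_mem _ h1', by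
      rw [mul_neg, mul_neg, map_neg]; linear_combination -e1⟩
  · exact ⟨0, AddSubgroup.zero_mem _, 0, AddSubgroup.zero_mem _, by simp⟩
  · intro i _
    rcases Nat.eq_zero_or_pos i with rfl | hi
    · refine ⟨((2 : ℤ) ^ (n + 2)) • Rp e 2, ?_, ((2 : ℤ) ^ (n + 2)) • (Rp (e + 1) 1 - 1), ?_, ?_⟩
      · refine smul_Rp_mem _ _ _ _ _ (fun l hl => ?_) ?_
        · refine dvdA _ _ _ _ _ (fun h => ?_)
          unfold α
          omega
        · intro l hl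
          have : l = 0 := by omega
          subst this
          rw [κ_zero _ _ le_rfl, mul_zero]
      · refine Rp_sub_one_mem _ _ _ (fun l hl => ?_)
        refine dvdA _ _ _ _ _ (fun h => ?_)
        unfold α
        omega
      · have := S4 e 0
        simp only [pow_zero, mul_one, zero_add] at this
        simp only [σ, if_true, pow_zero, mul_smul_comm, mul_one, map_zsmul]
        rw [this]
        simp only [zsmul_eq_mul]
        push_cast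
        ring
    · refine ⟨((2 : ℤ) ^ (n + 3 + i)) • Rp e (i + 2), ?_, ((2 : ℤ) ^ (n + 3 + i)) • Rp (e + 1) (i + 1) - ((2 : ℤ) ^ (n + 3 + i)) • z ^ i, ?_, ?_⟩
      · refine smul_Rp_mem _ _ _ _ _ (fun l hl => ?_) ?_
        · refine dvdA _ _ _ _ _ (fun h => ?_)
          unfold α
          omega
        · intro l hl
          have : l = 0 := by omega
          subst this
          rw [κ_zero _ _ (by omega), mul_zero]
      · refine AddSubgroup.sub_mem _ (smul_Rp_mem _ _ _ _ _ (fun l hl => ?_) ?_) (mem_Lat_mono _ _ _ _ hi (pow_dvd_pow 2 ?_))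
        · refine dvdA _ _ _ _ _ (fun h => ?_)
          unfold α
          omega
        · intro l hl
          have : l = 0 := by omega
          subst this
          rw [κ_zero _ _ (by omega), mul_zero]
        · unfold α
          omega
      · have hσ : σ n i = n + 3 + i := by unfold σ; rw [if_neg (by omega)]
        rw [hσ, mul_smul_comm, mul_smul_comm, map_zsmul, S4]
        simp only [zsmul_eq_mul]
        push_cast
        ring

/-- contraction, `1`-part -/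
lemma contrA (k e : ℕ) (F : ℤ⟦X⟧) (hF : F ∈ Lat (α k) 1) :
    ∃ A ∈ Lat (α (k + 1)) 1, U (t ^ (4 * (e + 1)) * F) = t ^ (2 * (e + 1)) * A := by
  refine Lat_induct (α k) 1 (fun F => ∃ A ∈ Lat (α (k + 1)) 1, U (t ^ (4 * (e + 1)) * F) = t ^ (2 * (e + 1)) * A) ?_ ?_ ?_ ?_ F hF
  · rintro f1 f2 ⟨A1, h1, e1⟩ ⟨A2, h2, e2⟩
    exact ⟨A1 + A2, AddSubgroup.add_mem _ h1 h2, by rw [mul_add, map_add, e1, e2]; ring⟩
  · rintro f1 ⟨A1, h1, e1⟩
    exact ⟨-A1, AddSubgroup.neg_mem _ h1, by rw [mul_neg, map_neg, e1]; ring⟩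
  · exact ⟨0, AddSubgroup.zero_mem _, by simp⟩
  · intro i hi
    refine ⟨((2 : ℤ) ^ (k + i + 1)) • Rp e (i + 2) + ((2 : ℤ) ^ (k + i)) • Rp e (i + 1), ?_, ?_⟩
    · refine AddSubgroup.add_mem _ (smul_Rp_mem _ _ _ _ _ (fun l hl => ?_) ?_) (smul_Rp_mem _ _ _ _ _ (fun l hl => ?_) ?_)
      · refine dvdA _ _ _ _ _ (fun h => ?_)
        unfold α
        omega
      · intro l hl
        have : l = 0 := by omega
        subst this
        rw [κ_zero _ _ (by omega), mul_zero]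
      · refine dvdA _ _ _ _ _ (fun h => ?_)
        unfold α
        omega
      · intro l hl
        have : l = 0 := by omega
        subst this
        rw [κ_zero _ _ (by omega), mul_zero]
    · unfold α
      rw [mul_smul_comm, map_zsmul, S1]
      simp only [zsmul_eq_mul]
      push_cast
      ring

/-- contraction, `τ`-part -/
lemma contrB (k e : ℕ) (F : ℤ⟦X⟧) (hF : F ∈ Lat (α (k + 1)) 1) :
    ∃ A ∈ Lat (α (k + 1)) 1, ∃ B ∈ Lat (α (k + 2)) 1, U (t ^ (4 * (e + 1)) * (τ * F)) = t ^ (2 * (e + 1)) * (A + τ * B) := by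
  refine Lat_induct (α (k + 1)) 1 (fun F => ∃ A ∈ Lat (α (k + 1)) 1, ∃ B ∈ Lat (α (k + 2)) 1, U (t ^ (4 * (e + 1)) * (τ * F)) = t ^ (2 * (e + 1)) * (A + τ * B)) ?_ ?_ ?_ ?_ F hF
  · rintro f1 f2 ⟨A1, h1, B1, h1', e1⟩ ⟨A2, h2, B2, h2', e2⟩
    exact ⟨A1 + A2, AddSubgroup.add_mem _ h1 h2, B1 + B2, AddSubgroup.add_mem _ h1' h2', by
      rw [mul_add τ f1 f2, mul_add (t ^ (4 * (e + 1))), map_add, e1, e2]; ring⟩
  · rintro f1 ⟨A1, h1, B1, h1', e1⟩
    exact ⟨-A1, AddSubgroup.neg_mem _ h1, -B1, AddSubgroup.neg_mem _ h1', by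
      rw [mul_neg, mul_neg, map_neg, e1]; ring⟩
  · exact ⟨0, AddSubgroup.zero_mem _, 0, AddSubgroup.zero_mem _, by simp⟩
  · intro i hi
    refine ⟨((2 : ℤ) ^ (k + 1 + i)) • Rp e (i + 2), ?_, ((2 : ℤ) ^ (k + 1 + i)) • Rp (e + 1) (i + 1), ?_, ?_⟩
    · refine smul_Rp_mem _ _ _ _ _ (fun l hl => ?_) ?_
      · refine dvdA _ _ _ _ _ (fun h => ?_)
        unfold α
        omega
      · intro l hl
        have : l = 0 := by omega
        subst this
        rw [κ_zero _ _ (by omega), mul_zero]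
    · refine smul_Rp_mem _ _ _ _ _ (fun l hl => ?_) ?_
      · refine dvdA _ _ _ _ _ (fun h => ?_)
        unfold α
        omega
      · intro l hl
        have : l = 0 := by omega
        subst this
        rw [κ_zero _ _ (by omega), mul_zero]
    · unfold α
      rw [mul_smul_comm, mul_smul_comm, map_zsmul, S4]
      simp only [zsmul_eq_mul]
      push_cast
      ring

lemma Lat_coeff_dvd (k : ℕ) (F : ℤ⟦X⟧) (hF : F ∈ Lat (α k) 1) : ∃ G : ℤ⟦X⟧, F = ((2 : ℤ) ^ (k + 1)) • G := by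
  refine Lat_induct (α k) 1 (fun F => ∃ G : ℤ⟦X⟧, F = ((2 : ℤ) ^ (k + 1)) • G) ?_ ?_ ?_ ?_ F hF
  · rintro f1 f2 ⟨A1, e1⟩ ⟨A2, e2⟩
    exact ⟨A1 + A2, by rw [e1, e2, smul_add]⟩
  · rintro f1 ⟨A1, e1⟩
    exact ⟨-A1, by rw [e1, smul_neg]⟩
  · exact ⟨0, by simp⟩
  · intro i hi
    refine ⟨((2 : ℤ) ^ (i - 1)) • z ^ i, ?_⟩
    rw [← mul_smul, ← pow_add]
    congr 2
    unfold α
    omega


/-! ### the iteration -/

/-- `h_{k+1} = U (t^{2^(n+1)} h_k)`, `h_0 = 1`. -/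
noncomputable def hh (n : ℕ) : ℕ → ℤ⟦X⟧
  | 0 => 1
  | k + 1 => U (t ^ (2 ^ (n + 1)) * hh n k)

lemma hh_succ (n k : ℕ) : hh n (k + 1) = U (t ^ (2 ^ (n + 1)) * hh n k) := by rw [hh]

/-- stages `0, …, n` -/
lemma stage (n k : ℕ) (hk : k ≤ n) : ∃ F ∈ Lat (φ n (2 ^ (n - k))) 0, ∃ g, g + 2 ^ (n - k) = 2 ^ n ∧ hh n k = t ^ (2 * g) * F := by
  induction k with
  | zero =>
    refine ⟨1, ?_, 0, by simp, by simp [hh]⟩
    have := mem_Lat_mono (φ n (2 ^ (n - 0))) 0 0 1 le_rfl (by simp [φ])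
    simpa using this
  | succ k ih =>
    obtain ⟨F, hF, g, hg, hh1⟩ := ih (by omega)
    have h2 : 2 ^ (n - k) = 2 * 2 ^ (n - (k + 1)) := by
      rw [← pow_succ']; congr 1; omega
    set f := 2 ^ (n - (k + 1)) with hf
    have hfpos : 0 < f := Nat.two_pow_pos _
    have hgN : g + 2 * f = 2 ^ n := by rw [← hg, h2]
    -- e + 1 + f = 2^n
    have hfn : 2 * f ≤ 2 ^ n := by omega
    obtain ⟨e, he⟩ : ∃ e, e + 1 + f = 2 ^ n := ⟨2 ^ n - f - 1, by omega⟩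
    rw [h2] at hF
    obtain ⟨G, hG, hG2⟩ := step n e f he F hF
    refine ⟨G, hG, e + 1, he, ?_⟩
    rw [hh_succ, hh1, ← mul_assoc, ← pow_add]
    have h3 : 2 ^ (n + 1) + 2 * g = 4 * (e + 1) := by rw [pow_succ]; omega
    rw [h3, hG2]

lemma stage_n (n e : ℕ) (he : e + 1 = 2 ^ n) : ∃ F ∈ Lat (φ n 1) 0, hh n n = t ^ (2 * e) * F := by
  obtain ⟨F, hF, g, hg, h⟩ := stage n n le_rfl
  rw [Nat.sub_self, pow_zero] at hF hg
  have : g = e := by omega
  exact ⟨F, hF, by rw [h, this]⟩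

lemma stage_n1 (n e : ℕ) (he : e + 1 = 2 ^ n) : ∃ F ∈ Lat (φ n 0) 0, hh n (n + 1) = (1 + X) * t ^ (2 * (e + 1)) * F := by
  obtain ⟨F, hF, h⟩ := stage_n n e he
  obtain ⟨G, hG, hG2⟩ := step2 n e he F hF
  refine ⟨G, hG, ?_⟩
  rw [hh_succ, h, ← mul_assoc, ← pow_add]
  have h3 : 2 ^ (n + 1) + 2 * e = 2 * (2 * e + 1) := by rw [pow_succ]; omega
  rw [h3, hG2]

lemma stage_n2 (n e : ℕ) (he : e + 1 = 2 ^ n) : ∃ A ∈ Lat (φ n 0) 0, ∃ B ∈ Lat (σ n) 0,
    hh n (n + 2) = t ^ (2 * (e + 1)) * (A + τ * B) := by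
  obtain ⟨F, hF, h⟩ := stage_n1 n e he
  obtain ⟨A, hA, B, hB, hG2⟩ := step3 n e he F hF
  refine ⟨A, hA, B, hB, ?_⟩
  rw [hh_succ, h]
  have h3 : t ^ (2 ^ (n + 1)) * ((1 + X) * t ^ (2 * (e + 1)) * F) = (1 + X) * t ^ (4 * (e + 1)) * F := by
    have : 4 * (e + 1) = 2 ^ (n + 1) + 2 * (e + 1) := by rw [pow_succ]; omega
    rw [this, pow_add]; ring
  rw [h3, hG2]

lemma diff0 (n e : ℕ) (he : e + 1 = 2 ^ n) : ∃ A ∈ Lat (α (n + 2)) 1, ∃ B ∈ Lat (α (n + 3)) 1,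
    hh n (n + 3) - hh n (n + 2) = t ^ (2 * (e + 1)) * (A + τ * B) := by
  obtain ⟨A, hA, B, hB, h⟩ := stage_n2 n e he
  obtain ⟨A1, hA1, B1, hB1, h1⟩ := diffA n e he A hA
  obtain ⟨A2, hA2, B2, hB2, h2⟩ := diffB n e B hB
  refine ⟨A1 + A2, AddSubgroup.add_mem _ hA1 hA2, B1 + B2, AddSubgroup.add_mem _ hB1 hB2, ?_⟩
  rw [hh_succ, h]
  have h3 : t ^ (2 ^ (n + 1)) * (t ^ (2 * (e + 1)) * (A + τ * B)) = t ^ (4 * (e + 1)) * A + t ^ (4 * (e + 1)) * (τ * B) := by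
    have : 4 * (e + 1) = 2 ^ (n + 1) + 2 * (e + 1) := by rw [pow_succ]; omega
    rw [this, pow_add]; ring
  rw [h3, map_add]
  linear_combination h1 + h2

lemma diffk (n e j : ℕ) (he : e + 1 = 2 ^ n) : ∃ A ∈ Lat (α (n + 2 + j)) 1, ∃ B ∈ Lat (α (n + 2 + j + 1)) 1,
    hh n (n + 2 + j + 1) - hh n (n + 2 + j) = t ^ (2 * (e + 1)) * (A + τ * B) := by
  induction j with
  | zero => exact diff0 n e he
  | succ j ih =>
    obtain ⟨A, hA, B, hB, h⟩ := ih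
    obtain ⟨A1, hA1, h1⟩ := contrA (n + 2 + j) e A hA
    obtain ⟨A2, hA2, B2, hB2, h2⟩ := contrB (n + 2 + j) e B hB
    refine ⟨A1 + A2, AddSubgroup.add_mem _ hA1 hA2, B2, hB2, ?_⟩
    have e1 : hh n (n + 2 + (j + 1) + 1) - hh n (n + 2 + (j + 1)) = U (t ^ (2 ^ (n + 1)) * (hh n (n + 2 + j + 1) - hh n (n + 2 + j))) := by
      rw [mul_sub, map_sub, ← hh_succ, ← hh_succ]; rfl
    have h3 : t ^ (2 ^ (n + 1)) * (t ^ (2 * (e + 1)) * (A + τ * B)) = t ^ (4 * (e + 1)) * A + t ^ (4 * (e + 1)) * (τ * B) := by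
      have : 4 * (e + 1) = 2 ^ (n + 1) + 2 * (e + 1) := by rw [pow_succ]; omega
      rw [this, pow_add]; ring
    rw [e1, h, h3, map_add, h1, h2]; ring

/-- `h_{k+1} ≡ h_k (mod 2^{k+1})` for `k ≥ n + 2 = m + 1`. -/
lemma diff_dvd (n k : ℕ) (hk : n + 2 ≤ k) : ∃ G : ℤ⟦X⟧, hh n (k + 1) - hh n k = ((2 : ℤ) ^ (k + 1)) • G := by
  obtain ⟨j, rfl⟩ : ∃ j, k = n + 2 + j := ⟨k - (n + 2), by omega⟩
  obtain ⟨e, he⟩ : ∃ e, e + 1 = 2 ^ n := ⟨2 ^ n - 1, by have := Nat.two_pow_pos n; omega⟩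
  obtain ⟨A, hA, B, hB, h⟩ := diffk n e j he
  obtain ⟨A', hA'⟩ := Lat_coeff_dvd _ A hA
  obtain ⟨B', hB'⟩ := Lat_coeff_dvd _ B hB
  refine ⟨t ^ (2 * (e + 1)) * (A' + τ * ((2 : ℤ) • B')), ?_⟩
  rw [h, hA', hB']
  simp only [zsmul_eq_mul]
  push_cast
  ring

/-! ### the coloured binary partition function -/

/-- `1/(1 - x^d) = ∑_{d ∣ n} x^n` for `d ≥ 1`. -/
def geom (d : ℕ) : ℤ⟦X⟧ := mk fun n => if d ∣ n then 1 else 0

lemma geom_mul (d : ℕ) (hd : 0 < d) : geom d * (1 - X ^ d) = 1 := by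
  ext n
  rw [mul_sub, mul_one, map_sub, PowerSeries.coeff_mul_X_pow', geom, coeff_mk, PowerSeries.coeff_one]
  rcases Nat.lt_or_ge n d with h | h
  · rw [if_neg (by omega : ¬ d ≤ n), sub_zero]
    by_cases hn : n = 0
    · subst hn; simp
    · rw [if_neg hn, if_neg]
      intro hdn
      exact absurd (Nat.le_of_dvd (Nat.pos_of_ne_zero hn) hdn) (by omega)
  · rw [if_pos h, coeff_mk, if_neg (by omega : ¬ n = 0)]
    by_cases hdn : d ∣ n
    · rw [if_pos hdn, if_pos (Nat.dvd_sub hdn dvd_rfl)]; simp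
    · rw [if_neg hdn, if_neg]
      · simp
      · intro h2
        apply hdn
        have := Nat.dvd_add h2 (dvd_refl d)
        rwa [Nat.sub_add_cancel h] at this

/-- the truncated product `∏_{i<K} (1 - x^{2^i})^{-m}` -/
noncomputable def P (m K : ℕ) : ℤ⟦X⟧ := ∏ i ∈ range K, (geom (2 ^ i)) ^ m

/-- `b_m(n)`: coefficient of `x^n` in `∏_{i ≤ n} (1 - x^{2^i})^{-m}`
(the factors with `i > n` do not change this coefficient). -/
noncomputable def b (m n : ℕ) : ℤ := coeff n (∏ i ∈ range (n + 1), (geom (2 ^ i)) ^ m)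

lemma P_succ_sub (m K : ℕ) : ∃ g : ℤ⟦X⟧, P m (K + 1) - P m K = X ^ (2 ^ K) * g := by
  have h1 := geom_mul (2 ^ K) (Nat.two_pow_pos K)
  have h2 : (1 - X ^ (2 ^ K) : ℤ⟦X⟧) * geom (2 ^ K) = 1 := by rw [mul_comm]; exact h1
  have h3 : geom (2 ^ K) - 1 ∣ geom (2 ^ K) ^ m - 1 ^ m := sub_dvd_pow_sub_pow _ _ m
  obtain ⟨q, hq⟩ := h3
  refine ⟨P m K * geom (2 ^ K) * q, ?_⟩
  unfold P
  rw [Finset.prod_range_succ]
  rw [one_pow] at hq
  linear_combination (∏ i ∈ range K, (geom (2 ^ i)) ^ m) * hq + ((∏ i ∈ range K, (geom (2 ^ i)) ^ m) * q) * h1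

lemma coeff_P (m n K : ℕ) (hK : n < 2 ^ K) (K' : ℕ) (hKK : K ≤ K') : coeff n (P m K') = coeff n (P m K) := by
  induction K', hKK using Nat.le_induction with
  | base => rfl
  | succ K' hKK ih =>
    obtain ⟨g, hg⟩ := P_succ_sub m K'
    have : coeff n (P m (K' + 1) - P m K') = 0 := by
      rw [hg, PowerSeries.coeff_X_pow_mul', if_neg]
      have : 2 ^ K ≤ 2 ^ K' := Nat.pow_le_pow_right (by norm_num) hKK
      omega
    rw [map_sub, sub_eq_zero] at this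
    rw [this, ih]

lemma b_eq (m n K : ℕ) (hK : n < 2 ^ K) : b m n = coeff n (P m K) := by
  have h1 : n < 2 ^ (n + 1) := lt_trans Nat.lt_two_pow_self (Nat.pow_lt_pow_right (by norm_num) (Nat.lt_succ_self n))
  have h2 : b m n = coeff n (P m (n + 1)) := rfl
  rcases Nat.le_total K (n + 1) with h | h
  · rw [h2, coeff_P m n K hK (n + 1) h]
  · rw [h2, ← coeff_P m n (n + 1) h1 K h]

lemma geom_one : geom 1 = t := by
  ext n
  simp [geom, t]

lemma E_geom (d : ℕ) : E (geom d) = geom (2 * d) := by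
  ext n
  rw [PowerSeries.coeff_expand, geom, geom, coeff_mk, coeff_mk]
  by_cases h : 2 ∣ n
  · obtain ⟨q, rfl⟩ := h
    rw [if_pos (dvd_mul_right 2 q), Nat.mul_div_cancel_left _ (by norm_num)]
    by_cases hd : d ∣ q
    · rw [if_pos hd, if_pos (Nat.mul_dvd_mul_left 2 hd)]
    · rw [if_neg hd, if_neg]
      intro h2
      exact hd (Nat.dvd_of_mul_dvd_mul_left (by norm_num) h2)
  · rw [if_neg h, if_neg]
    intro h2
    exact h (dvd_trans (dvd_mul_right 2 d) h2)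

lemma P_succ (m K : ℕ) : P m (K + 1) = t ^ m * E (P m K) := by
  unfold P
  rw [Finset.prod_range_succ', pow_zero, geom_one, map_prod, mul_comm]
  congr 1
  refine Finset.prod_congr rfl fun i _ => ?_
  rw [map_pow, E_geom, ← pow_succ']

/-- the generating function -/
noncomputable def Bser (m : ℕ) : ℤ⟦X⟧ := mk (b m)

lemma Bser_sub (m K : ℕ) : ∃ g, Bser m - P m K = X ^ (2 ^ K) * g := by
  have : (X : ℤ⟦X⟧) ^ (2 ^ K) ∣ Bser m - P m K := by
    rw [PowerSeries.X_pow_dvd_iff]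
    intro n hn
    rw [map_sub, Bser, coeff_mk, b_eq m n K hn, sub_self]
  exact this

lemma Bser_eq (m : ℕ) : Bser m = t ^ m * E (Bser m) := by
  ext n
  have hn : n < 2 ^ n := Nat.lt_two_pow_self
  obtain ⟨g, hg⟩ := Bser_sub m n
  have h1 : E (Bser m) = E (P m n) + X ^ (2 * 2 ^ n) * E g := by
    have : Bser m = P m n + X ^ (2 ^ n) * g := by rw [← hg]; ring
    rw [this, map_add, map_mul, map_pow, PowerSeries.expand_X, ← pow_mul]
  rw [h1, mul_add, ← P_succ, map_add]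
  have h2 : t ^ m * (X ^ (2 * 2 ^ n) * E g) = X ^ (2 * 2 ^ n) * (t ^ m * E g) := by ring
  rw [h2, PowerSeries.coeff_X_pow_mul', if_neg (by omega), add_zero, Bser, coeff_mk]
  exact b_eq m n (n + 1) (lt_trans hn (Nat.pow_lt_pow_right (by norm_num) (Nat.lt_succ_self n)))

lemma b_iter (n k j : ℕ) : b (2 ^ (n + 1)) (2 ^ k * j) = coeff j (Bser (2 ^ (n + 1)) * hh n k) := by
  induction k generalizing j with
  | zero => simp [hh, Bser]
  | succ k ih =>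
    have h1 : Bser (2 ^ (n + 1)) * hh n (k + 1) = U (Bser (2 ^ (n + 1)) * hh n k) := by
      rw [hh_succ, ← U_E_mul]
      congr 1
      conv_rhs => rw [Bser_eq]
      ring
    rw [h1, coeff_U, ← ih]
    congr 1
    ring

/-- strong form -/
lemma strong (n k j : ℕ) (hk : n + 2 ≤ k) : (2 : ℤ) ^ (k + 1) ∣ b (2 ^ (n + 1)) (2 ^ (k + 1) * j) - b (2 ^ (n + 1)) (2 ^ k * j) := by
  rw [b_iter, b_iter, ← map_sub, ← mul_sub]
  obtain ⟨G, hG⟩ := diff_dvd n k hk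
  rw [hG, mul_smul_comm, map_zsmul, smul_eq_mul]
  exact dvd_mul_right _ _

/-- **Main theorem.** `b m n` is the coefficient of `x^n` in `∏_{i≥0} (1 - x^{2^i})^{-m}`: for every `K`
with `n < 2^K` it is the coefficient of `x^n` in the product of the first `K` factors, where
`geom d` is the inverse of `1 - x^d`. For all `m ≥ 1`, `n ≥ 0`:
`b_{2^m}(2^{k+1} n) ≡ b_{2^m}(2^{k-1} n) (mod 2^k)` for `k ≥ m + 2`; moreover
`b_{2^m}(2^{k+1} n) ≡ b_{2^m}(2^k n) (mod 2^{k+1})` for `k ≥ m + 1`. -/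
theorem result :
    (∀ d : ℕ, 0 < d → geom d * (1 - X ^ d) = 1) ∧
    (∀ m n K : ℕ, n < 2 ^ K → b m n = coeff n (∏ i ∈ Finset.range K, (geom (2 ^ i)) ^ m)) ∧
    (∀ m n k : ℕ, 1 ≤ m → m + 2 ≤ k →
      b (2 ^ m) (2 ^ (k + 1) * n) ≡ b (2 ^ m) (2 ^ (k - 1) * n) [ZMOD 2 ^ k]) ∧
    (∀ m n k : ℕ, 1 ≤ m → m + 1 ≤ k →
      b (2 ^ m) (2 ^ (k + 1) * n) ≡ b (2 ^ m) (2 ^ k * n) [ZMOD 2 ^ (k + 1)]) := by
  have hstrong : ∀ m n k : ℕ, 1 ≤ m → m + 1 ≤ k →
      (2 : ℤ) ^ (k + 1) ∣ b (2 ^ m) (2 ^ (k + 1) * n) - b (2 ^ m) (2 ^ k * n) := by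
    intro m n k hm hk
    obtain ⟨n', rfl⟩ : ∃ n', m = n' + 1 := ⟨m - 1, by omega⟩
    exact strong n' k n (by omega)
  refine ⟨geom_mul, fun m n K h => b_eq m n K h, ?_, ?_⟩
  · intro m n k hm hk
    have h1 := hstrong m n k hm (by omega)
    obtain ⟨k', rfl⟩ : ∃ k', k = k' + 1 := ⟨k - 1, by omega⟩
    have h2 := hstrong m n k' hm (by omega)
    rw [Nat.add_sub_cancel]
    have h3 : (2 : ℤ) ^ (k' + 1) ∣ (2 : ℤ) ^ (k' + 1 + 1) := pow_dvd_pow 2 (by omega)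
    have h4 := dvd_add (h3.trans h1) h2
    apply Int.ModEq.symm
    rw [Int.modEq_iff_dvd]
    have h5 : b (2 ^ m) (2 ^ (k' + 1 + 1) * n) - b (2 ^ m) (2 ^ k' * n) = (b (2 ^ m) (2 ^ (k' + 1 + 1) * n) - b (2 ^ m) (2 ^ (k' + 1) * n)) + (b (2 ^ m) (2 ^ (k' + 1) * n) - b (2 ^ m) (2 ^ k' * n)) := by ring
    rw [h5]; exact h4
  · intro m n k hm hk
    apply Int.ModEq.symm
    rw [Int.modEq_iff_dvd]
    exact hstrong m n k hm hk

end Pool.Agent.Results.MP_06821b_nt.BinaryColoured
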